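import Pool.Agent.H50.LogB3

namespace Pool.Agent.Results.MP_cd3f56_nt.Member

open MeasureTheory Set Real Pool.Agent.H50.LogB

/-- The Riemann zeta value at an integer `k ≥ 2`. -/
noncomputable def zeta (k : ℕ) : ℝ := ∑' m : ℕ, 1 / ((m : ℝ) + 1) ^ k

/-- The rational subalgebra of the reals generated by `π ^ 2`, `log 2` and odd zeta values. -/
noncomputable def A : Subalgebra ℚ ℝ :=
  Algebra.adjoin ℚ ({π ^ 2, log 2} ∪ {x | ∃ k : ℕ, Odd k ∧ 3 ≤ k ∧ x = zeta k})

lemma zeta_mem (m : ℕ) : zeta (m + 2) ∈ A := by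
  rcases Nat.even_or_odd' m with ⟨k, rfl | rfl⟩
  · have h := (hasSum_nat_add_iff' 1).2 (hasSum_zeta_nat (k := k + 1) (by omega))
    have e : zeta (2 * k + 2) = ((-1 : ℚ) ^ (k + 1 + 1) * (2 : ℚ) ^ (2 * (k + 1) - 1) *
        bernoulli (2 * (k + 1)) / (2 * (k + 1)).factorial) • (π ^ 2) ^ (k + 1) := by
      have h2 := h.tsum_eq
      simp only [Finset.range_one, Finset.sum_singleton, Nat.cast_zero, Nat.cast_add,
        Nat.cast_one] at h2
      rw [zero_pow (by omega), div_zero, sub_zero] at h2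
      unfold zeta
      rw [show 2 * k + 2 = 2 * (k + 1) by ring, h2, Rat.smul_def, ← pow_mul]
      push_cast
      ring
    rw [e]
    exact A.smul_mem (A.pow_mem (Algebra.subset_adjoin (by simp)) _) _
  · exact Algebra.subset_adjoin (Or.inr ⟨2 * k + 1 + 2, ⟨k + 1, by ring⟩, by omega, rfl⟩)

theorem result (n : ℕ) :
    IntervalIntegrable (fun x : ℝ => log (1 - x) ^ (n + 1) * log (1 + x) ^ n / (1 + x)) volume 0 1 ∧
      (∫ x in (0 : ℝ)..1, log (1 - x) ^ (n + 1) * log (1 + x) ^ n / (1 + x)) ∈ A := by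
  have hc : EqOn (fun x : ℝ => (1 / 2) * (E (n + 1) n (1 / 2 * (1 - x)) * (1 - 1 / 2 * (1 - x))⁻¹))
      (fun x : ℝ => log (1 - x) ^ (n + 1) * log (1 + x) ^ n / (1 + x)) (Ioo 0 1) := by
    intro x hx
    have h1 : 1 - x ≠ 0 := by linarith [hx.2]
    have h2 : 1 + x ≠ 0 := by linarith [hx.1]
    have e : 1 - 1 / 2 * (1 - x) = 1 / 2 * (1 + x) := by ring
    simp only [E, e]
    rw [log_mul (by norm_num) h1, log_mul (by norm_num) h2, one_div, log_inv]
    simp only [add_neg_cancel_left]
    field_simp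
  constructor
  · have h := (((Q_int (n + 1) n).comp_mul_left (c := 1 / 2)).comp_sub_left 1).symm.const_mul (1 / 2)
    norm_num only at h
    rw [intervalIntegrable_iff_integrableOn_Ioo_of_le zero_le_one] at h ⊢
    exact h.congr_fun hc measurableSet_Ioo
  · have h := Q_mem A (Algebra.subset_adjoin (by simp)) (J_mem A zeta_mem) n
    convert h using 1
    rw [intervalIntegral.integral_of_le zero_le_one, integral_Ioc_eq_integral_Ioo,
      ← setIntegral_congr_fun measurableSet_Ioo hc, ← integral_Ioc_eq_integral_Ioo,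
      ← intervalIntegral.integral_of_le zero_le_one, intervalIntegral.integral_const_mul,
      intervalIntegral.integral_comp_sub_left
        (fun y => E (n + 1) n (1 / 2 * y) * (1 - 1 / 2 * y)⁻¹) 1,
      intervalIntegral.integral_comp_mul_left (fun y => E (n + 1) n y * (1 - y)⁻¹) (by norm_num)]
    norm_num
    ring

end Pool.Agent.Results.MP_cd3f56_nt.Member
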